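import Pool.Agent.Helper60.Plz.Defs

/-!
# Packet A of MP_8e7d5e_co: Mader's argument for families of connected sets
-/

set_option autoImplicit false

namespace Pool.Agent.Helper10.Plz

open Pool.Agent.Helper60.Plz

variable {V : Type} {H : SimpleGraph V}

/-- Different touching sets. -/
def TT (H : SimpleGraph V) (P Q : Finset V) : Prop := P ≠ Q ∧ Touch H P Q

theorem Touch.symm' {P Q : Finset V} (h : Touch H P Q) : Touch H Q P := by
  obtain ⟨x, hx, y, hy, hxy⟩ := h
  exact ⟨y, hy, x, hx, hxy.symm⟩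

theorem TT.symm {P Q : Finset V} (h : TT H P Q) : TT H Q P := ⟨h.1.symm, Touch.symm' h.2⟩

theorem TT_comm {P Q : Finset V} : TT H P Q ↔ TT H Q P := ⟨TT.symm, TT.symm⟩

open Classical in
/-- The members of `F` touching `P`. -/
noncomputable def nb (H : SimpleGraph V) (F : Finset (Finset V)) (P : Finset V) :
    Finset (Finset V) := F.filter fun Q => TT H P Q

open Classical in
theorem pairs_eq (F : Finset (Finset V)) :
    pairs H F = ∑ P ∈ F, ∑ Q ∈ F, if TT H P Q then 1 else 0 := by
  unfold pairs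
  rw [Finset.card_filter, Finset.sum_product]
  refine Finset.sum_congr rfl fun P _ => Finset.sum_congr rfl fun Q _ => ?_
  by_cases h : TT H P Q
  · exact (if_pos h).trans (if_pos h).symm
  · exact (if_neg h).trans (if_neg h).symm

open Classical in
theorem nb_card (F : Finset (Finset V)) (P : Finset V) :
    (nb H F P).card = ∑ Q ∈ F, if TT H P Q then 1 else 0 := by
  unfold nb
  rw [Finset.card_filter]

theorem pairs_eq_sum (F : Finset (Finset V)) :
    pairs H F = ∑ P ∈ F, (nb H F P).card := by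
  classical
  rw [pairs_eq]
  exact Finset.sum_congr rfl fun P _ => (nb_card F P).symm

open Classical in
theorem pairs_insert {F : Finset (Finset V)} {P : Finset V} (hP : P ∉ F) :
    pairs H (insert P F) = pairs H F + 2 * (nb H F P).card := by
  rw [pairs_eq, pairs_eq, nb_card, Finset.sum_insert hP, Finset.sum_insert hP,
    if_neg (fun h : TT H P P => h.1 rfl)]
  have h1 : ∑ A ∈ F, ∑ Q ∈ insert P F, (if TT H A Q then 1 else 0) =
      ∑ A ∈ F, ((if TT H P A then 1 else 0) + ∑ Q ∈ F, (if TT H A Q then 1 else 0)) := by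
    refine Finset.sum_congr rfl fun A _ => ?_
    rw [Finset.sum_insert hP]
    simp only [TT_comm (P := A) (Q := P)]
  rw [h1, Finset.sum_add_distrib]
  ring

theorem Fam.sub {F G : Finset (Finset V)} (hF : Fam H F) (hG : G ⊆ F) : Fam H G :=
  ⟨fun P hP => hF.conn P (hG hP), fun P hP Q hQ => hF.disj P (hG hP) Q (hG hQ)⟩

theorem conn_nonempty {P : Finset V} (h : (H.induce (P : Set V)).Connected) : P.Nonempty := by
  obtain ⟨x⟩ := h.nonempty
  exact ⟨x.1, x.2⟩

open Classical in
theorem conn_union {P Q : Finset V} (hP : (H.induce (P : Set V)).Connected)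
    (hQ : (H.induce (Q : Set V)).Connected) (h : Touch H P Q) :
    (H.induce ((P ∪ Q : Finset V) : Set V)).Connected := by
  obtain ⟨x, hx, y, hy, hxy⟩ := h
  rw [Finset.coe_union]
  exact SimpleGraph.connected_induce_union hP.preconnected hQ.preconnected
    (by simpa using hx) (by simpa using hy) hxy

theorem Model.mono_union {F G : Finset (Finset V)} {r : ℕ}
    (h : Model H G r) (h1 : ∀ P ∈ G, ∃ Q ∈ F, Q ⊆ P)
    (h2 : ∀ P ∈ G, ∀ x ∈ P, ∃ Q ∈ F, x ∈ Q) : Model H F r := by
  obtain ⟨f, hc, hd, ht, hm, hu⟩ := h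
  refine ⟨f, hc, hd, ht, ?_, ?_⟩
  · intro i
    obtain ⟨P, hP, hPf⟩ := hm i
    obtain ⟨Q, hQ, hQP⟩ := h1 P hP
    exact ⟨Q, hQ, hQP.trans hPf⟩
  · intro i x hx
    obtain ⟨P, hP, hxP⟩ := hu i x hx
    exact h2 P hP x hxP

open Classical in
/-- Case 1: contraction of a touching pair with few common neighbours. -/
theorem contract {F : Finset (Finset V)} (hF : Fam H F) {P Q : Finset V} (hP : P ∈ F)
    (hQ : Q ∈ F) (hPQ : TT H P Q) (k : ℕ)
    (hc : (F.filter fun R => TT H P R ∧ TT H Q R).card < k) :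
    ∃ G : Finset (Finset V), Fam H G ∧ G.card + 1 = F.card ∧ pairs H F ≤ pairs H G + 2 * k ∧
      (∀ A ∈ G, ∃ B ∈ F, B ⊆ A) ∧ (∀ A ∈ G, ∀ x ∈ A, ∃ B ∈ F, x ∈ B) := by
  set F0 : Finset (Finset V) := (F.erase P).erase Q with hF0
  have hF0F : F0 ⊆ F := (Finset.erase_subset _ _).trans (Finset.erase_subset _ _)
  have hQF0 : Q ∉ F0 := Finset.notMem_erase _ _
  have hPF0 : P ∉ insert Q F0 := by
    rw [hF0, Finset.insert_erase (Finset.mem_erase.2 ⟨hPQ.1.symm, hQ⟩)]
    exact Finset.notMem_erase _ _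
  have hPF0' : P ∉ F0 := fun h => hPF0 (Finset.mem_insert_of_mem h)
  have hFeq : insert P (insert Q F0) = F := by
    rw [hF0, Finset.insert_erase (Finset.mem_erase.2 ⟨hPQ.1.symm, hQ⟩), Finset.insert_erase hP]
  obtain ⟨x0, hx0⟩ := conn_nonempty (hF.conn P hP)
  obtain ⟨y0, hy0⟩ := conn_nonempty (hF.conn Q hQ)
  have hUF0 : P ∪ Q ∉ F0 := by
    intro h
    have hne : P ∪ Q ≠ P := fun he => hPF0' (he ▸ h)
    exact Finset.disjoint_left.1 (hF.disj (P ∪ Q) (hF0F h) P hP hne)
      (Finset.mem_union_left _ hx0) hx0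
  have hdis : ∀ R ∈ F0, Disjoint (P ∪ Q) R := by
    intro R hR
    rw [Finset.disjoint_union_left]
    exact ⟨hF.disj P hP R (hF0F hR) (fun h => hPF0' (h ▸ hR)),
      hF.disj Q hQ R (hF0F hR) (fun h => hQF0 (h ▸ hR))⟩
  -- members of F0 touching the union
  have hnb : nb H F0 (P ∪ Q) = nb H F0 P ∪ nb H F0 Q := by
    ext R
    simp only [nb, Finset.mem_union, Finset.mem_filter]
    constructor
    · rintro ⟨hR, _, x, hx, y, hy, hxy⟩
      rcases Finset.mem_union.1 hx with h | h
      · exact Or.inl ⟨hR, fun he => hPF0' (he ▸ hR), x, h, y, hy, hxy⟩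
      · exact Or.inr ⟨hR, fun he => hQF0 (he ▸ hR), x, h, y, hy, hxy⟩
    · rintro (⟨hR, _, x, hx, y, hy, hxy⟩ | ⟨hR, _, x, hx, y, hy, hxy⟩)
      · exact ⟨hR, fun he => hUF0 (he ▸ hR), x, Finset.mem_union_left _ hx, y, hy, hxy⟩
      · exact ⟨hR, fun he => hUF0 (he ▸ hR), x, Finset.mem_union_right _ hx, y, hy, hxy⟩
  have hint : (nb H F0 P ∩ nb H F0 Q).card ≤
      (F.filter fun R => TT H P R ∧ TT H Q R).card := by
    refine Finset.card_le_card ?_
    intro R hR
    obtain ⟨h1, h2⟩ := Finset.mem_inter.1 hR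
    obtain ⟨h1a, h1b⟩ := Finset.mem_filter.1 h1
    exact Finset.mem_filter.2 ⟨hF0F h1a, h1b, (Finset.mem_filter.1 h2).2⟩
  have hui := Finset.card_union_add_card_inter (nb H F0 P) (nb H F0 Q)
  have hnbP : (nb H (insert Q F0) P).card = (nb H F0 P).card + 1 := by
    have : nb H (insert Q F0) P = insert Q (nb H F0 P) := by
      unfold nb
      rw [Finset.filter_insert, if_pos hPQ]
    rw [this, Finset.card_insert_of_notMem]
    intro h
    exact hQF0 (Finset.mem_filter.1 h).1
  have hpF : pairs H F = pairs H F0 + 2 * (nb H F0 Q).card + 2 * ((nb H F0 P).card + 1) := by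
    rw [← hnbP, ← pairs_insert hQF0, ← pairs_insert hPF0, hFeq]
  have hpG : pairs H (insert (P ∪ Q) F0) = pairs H F0 + 2 * (nb H F0 P ∪ nb H F0 Q).card := by
    rw [pairs_insert hUF0, hnb]
  refine ⟨insert (P ∪ Q) F0, ⟨?_, ?_⟩, ?_, ?_, ?_, ?_⟩
  · intro A hA
    rcases Finset.mem_insert.1 hA with h | h
    · rw [h]
      exact conn_union (hF.conn P hP) (hF.conn Q hQ) hPQ.2
    · exact hF.conn A (hF0F h)
  · intro A hA B hB hAB
    rcases Finset.mem_insert.1 hA with h | h <;> rcases Finset.mem_insert.1 hB with h' | h'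
    · exact absurd (h.trans h'.symm) hAB
    · rw [h]
      exact hdis B h'
    · rw [h']
      exact (hdis A h).symm
    · exact hF.disj A (hF0F h) B (hF0F h') hAB
  · rw [Finset.card_insert_of_notMem hUF0, ← hFeq, Finset.card_insert_of_notMem hPF0,
      Finset.card_insert_of_notMem hQF0]
  · rw [hpF, hpG]
    omega
  · intro A hA
    rcases Finset.mem_insert.1 hA with h | h
    · exact ⟨P, hP, h ▸ Finset.subset_union_left⟩
    · exact ⟨A, hF0F h, Finset.Subset.refl _⟩
  · intro A hA x hx
    rcases Finset.mem_insert.1 hA with h | h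
    · rw [h] at hx
      rcases Finset.mem_union.1 hx with h1 | h1
      · exact ⟨P, hP, h1⟩
      · exact ⟨Q, hQ, h1⟩
    · exact ⟨A, hF0F h, hx⟩

/-- Case 2: add one more set. -/
theorem Model.add {F N : Finset (Finset V)} (hF : Fam H F) {P : Finset V} (hP : P ∈ F)
    (hN : N ⊆ F) (hNP : ∀ Q ∈ N, TT H P Q) {r : ℕ} (h : Model H N r) : Model H F (r + 1) := by
  obtain ⟨f, hc, hd, ht, hm, hu⟩ := h
  have hdP : ∀ i, Disjoint P (f i) := by
    intro i
    rw [Finset.disjoint_left]
    intro x hxP hxf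
    obtain ⟨Q, hQ, hxQ⟩ := hu i x hxf
    exact Finset.disjoint_left.1 (hF.disj P hP Q (hN hQ) (hNP Q hQ).1) hxP hxQ
  have htP : ∀ i, Touch H P (f i) := by
    intro i
    obtain ⟨Q, hQ, hQf⟩ := hm i
    obtain ⟨x, hx, y, hy, hxy⟩ := (hNP Q hQ).2
    exact ⟨x, hx, y, hQf hy, hxy⟩
  refine ⟨Fin.cons P f, ?_, ?_, ?_, ?_, ?_⟩
  · intro i
    refine Fin.cases ?_ (fun i => ?_) i
    · exact hF.conn P hP
    · exact hc i
  · intro i j
    refine Fin.cases ?_ (fun i => ?_) i <;> refine Fin.cases ?_ (fun j => ?_) j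
    · intro hij
      exact absurd rfl hij
    · intro _
      simpa using hdP j
    · intro _
      simpa using (hdP i).symm
    · intro hij
      simpa using hd i j (fun h => hij (by rw [h]))
  · intro i j
    refine Fin.cases ?_ (fun i => ?_) i <;> refine Fin.cases ?_ (fun j => ?_) j
    · intro hij
      exact absurd rfl hij
    · intro _
      simpa using htP j
    · intro _
      simpa using Touch.symm' (htP i)
    · intro hij
      simpa using ht i j (fun h => hij (by rw [h]))
  · intro i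
    refine Fin.cases ?_ (fun i => ?_) i
    · exact ⟨P, hP, by simp⟩
    · obtain ⟨Q, hQ, hQf⟩ := hm i
      exact ⟨Q, hN hQ, by simpa using hQf⟩
  · intro i
    refine Fin.cases ?_ (fun i => ?_) i
    · intro x hx
      exact ⟨P, hP, by simpa using hx⟩
    · intro x hx
      obtain ⟨Q, hQ, hxQ⟩ := hu i x (by simpa using hx)
      exact ⟨Q, hN hQ, hxQ⟩

theorem exists_TT {F : Finset (Finset V)} (h : 0 < pairs H F) :
    ∃ P ∈ F, ∃ Q ∈ F, TT H P Q := by
  classical
  unfold pairs at h
  obtain ⟨p, hp⟩ := Finset.card_pos.1 h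
  obtain ⟨h1, h2⟩ := Finset.mem_filter.1 hp
  obtain ⟨h3, h4⟩ := Finset.mem_product.1 h1
  exact ⟨p.1, h3, p.2, h4, h2⟩

theorem packetA_aux (H : SimpleGraph V) (r : ℕ) : ∀ (F : Finset (Finset V)), Fam H F →
    F.Nonempty → 2 ^ r * F.card ≤ pairs H F → Model H F (r + 2) := by
  classical
  induction r with
  | zero =>
    intro F hF hne hp
    have hpos : 0 < pairs H F := lt_of_lt_of_le (by simpa using Finset.card_pos.2 hne) hp
    obtain ⟨P, hP, Q, hQ, hPQ⟩ := exists_TT hpos
    have h1 : Model H ({Q} : Finset (Finset V)) 1 := by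
      refine ⟨fun _ => Q, fun _ => hF.conn Q hQ, ?_, ?_, ?_, ?_⟩
      · intro i j hij
        exact absurd (Subsingleton.elim i j) hij
      · intro i j hij
        exact absurd (Subsingleton.elim i j) hij
      · intro _
        exact ⟨Q, Finset.mem_singleton_self _, Finset.Subset.refl _⟩
      · intro _ x hx
        exact ⟨Q, Finset.mem_singleton_self _, hx⟩
    refine Model.add hF hP (N := {Q}) ?_ ?_ h1
    · intro R hR
      rw [Finset.mem_singleton.1 hR]
      exact hQ
    · intro R hR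
      rw [Finset.mem_singleton.1 hR]
      exact hPQ
  | succ r ihr =>
    intro F
    induction' hn : F.card using Nat.strong_induction_on with n ih generalizing F
    intro hF hne hp
    have hcpos : 0 < F.card := Finset.card_pos.2 hne
    by_cases hcase : ∃ P ∈ F, ∃ Q ∈ F, TT H P Q ∧
        (F.filter fun R => TT H P R ∧ TT H Q R).card < 2 ^ r
    · obtain ⟨P, hP, Q, hQ, hPQ, hlt⟩ := hcase
      obtain ⟨G, hG, hGc, hGp, hG1, hG2⟩ := contract hF hP hQ hPQ _ hlt
      have hGne : G.Nonempty := by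
        have h2 : 2 ≤ F.card := by
          have : ({P, Q} : Finset (Finset V)).card ≤ F.card := by
            refine Finset.card_le_card ?_
            intro R hR
            rcases Finset.mem_insert.1 hR with h | h
            · rw [h]
              exact hP
            · rw [Finset.mem_singleton.1 h]
              exact hQ
          rwa [Finset.card_pair hPQ.1] at this
        exact Finset.card_pos.1 (by omega)
      have hm : Model H G (r + 1 + 2) := by
        refine ih G.card (by omega) G rfl hG hGne ?_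
        have h3 : 2 ^ (r + 1) * (G.card + 1) ≤ pairs H G + 2 * 2 ^ r := by
          rw [hGc, hn]
          exact hp.trans hGp
        have h4 : 2 ^ (r + 1) * (G.card + 1) = 2 ^ (r + 1) * G.card + 2 * 2 ^ r := by ring
        omega
      exact Model.mono_union hm hG1 hG2
    · push Not at hcase
      have hpos : 0 < pairs H F := lt_of_lt_of_le (by rw [← hn]; positivity) hp
      obtain ⟨P, hP, Q0, hQ0, hPQ0⟩ := exists_TT hpos
      have hNF : nb H F P ⊆ F := Finset.filter_subset _ _
      have hNne : (nb H F P).Nonempty := ⟨Q0, Finset.mem_filter.2 ⟨hQ0, hPQ0⟩⟩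
      have hpN : 2 ^ r * (nb H F P).card ≤ pairs H (nb H F P) := by
        rw [pairs_eq_sum, mul_comm, ← smul_eq_mul]
        refine Finset.card_nsmul_le_sum _ _ _ ?_
        intro Q hQ
        obtain ⟨hQF, hPQ⟩ := Finset.mem_filter.1 hQ
        refine (hcase P hP Q hQF hPQ).trans (Finset.card_le_card ?_)
        intro R hR
        obtain ⟨hRF, hPR, hQR⟩ := Finset.mem_filter.1 hR
        exact Finset.mem_filter.2 ⟨Finset.mem_filter.2 ⟨hRF, hPR⟩, hQR⟩
      have hm : Model H (nb H F P) (r + 2) := ihr _ (Fam.sub hF hNF) hNne hpN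
      exact Model.add hF hP hNF (fun Q hQ => (Finset.mem_filter.1 hQ).2) hm

theorem packetA : GoalA := fun _ H r F hF hne hp => packetA_aux H r F hF hne hp

end Pool.Agent.Helper10.Plz
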