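import Pool.Agent.Helper60.Plz.Defs

/-!
# Packet B of MP_8e7d5e_co: partition of a connected set into connected sets of bounded size
-/

set_option autoImplicit false

namespace Pool.Agent.Helper10.Plz

open Pool.Agent.Helper60.Plz

variable {V : Type} {H : SimpleGraph V}

/-- Reachability inside `X`. -/
def RT (H : SimpleGraph V) (X : Finset V) : V → V → Prop :=
  Relation.ReflTransGen (fun p q => H.Adj p q ∧ p ∈ X ∧ q ∈ X)

theorem RT.symm {X : Finset V} {u v : V} (h : RT H X u v) : RT H X v u := by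
  induction h with
  | refl => exact Relation.ReflTransGen.refl
  | tail hab hbc ih => exact Relation.ReflTransGen.head ⟨hbc.1.symm, hbc.2.2, hbc.2.1⟩ ih

theorem RT.mono {X Y : Finset V} (hXY : X ⊆ Y) {u v : V} (h : RT H X u v) : RT H Y u v := by
  induction h with
  | refl => exact Relation.ReflTransGen.refl
  | tail hab hbc ih => exact Relation.ReflTransGen.tail ih ⟨hbc.1, hXY hbc.2.1, hXY hbc.2.2⟩

theorem reachable_of_RT {X : Finset V} {u : V} (hu : u ∈ X) {v : V} (h : RT H X u v) :
    ∃ hv : v ∈ X, (H.induce (X : Set V)).Reachable ⟨u, hu⟩ ⟨v, hv⟩ := by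
  induction h with
  | refl => exact ⟨hu, SimpleGraph.Reachable.refl _⟩
  | tail hab hbc ih =>
    obtain ⟨hb, hr⟩ := ih
    refine ⟨hbc.2.2, hr.trans (SimpleGraph.Adj.reachable ?_)⟩
    exact hbc.1

theorem RT_of_reachable {X : Finset V} {u v : (X : Set V)}
    (h : (H.induce (X : Set V)).Reachable u v) : RT H X u.1 v.1 := by
  obtain ⟨p⟩ := h
  induction p with
  | nil => exact Relation.ReflTransGen.refl
  | cons hadj _ ih =>
    refine Relation.ReflTransGen.head ⟨hadj, ?_, ?_⟩ ih
    · exact Subtype.coe_prop _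
    · exact Subtype.coe_prop _

theorem conn_iff {X : Finset V} :
    (H.induce (X : Set V)).Connected ↔ X.Nonempty ∧ ∀ u ∈ X, ∀ v ∈ X, RT H X u v := by
  constructor
  · intro h
    refine ⟨?_, ?_⟩
    · obtain ⟨x⟩ := h.nonempty
      exact ⟨x.1, x.2⟩
    · intro u hu v hv
      exact RT_of_reachable (h.preconnected ⟨u, hu⟩ ⟨v, hv⟩)
  · rintro ⟨⟨x, hx⟩, h⟩
    have : Nonempty ((X : Set V)) := ⟨⟨x, hx⟩⟩
    refine SimpleGraph.Connected.mk ?_
    rintro ⟨u, hu⟩ ⟨v, hv⟩
    obtain ⟨_, hr⟩ := reachable_of_RT hu (h u hu v hv)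
    exact hr

/-- Connectivity from one vertex. -/
theorem conn_of_root {X : Finset V} {x : V} (hx : x ∈ X) (h : ∀ v ∈ X, RT H X x v) :
    (H.induce (X : Set V)).Connected :=
  conn_iff.2 ⟨⟨x, hx⟩, fun u hu v hv => (h u hu).symm.trans (h v hv)⟩

theorem exists_cross {W : Finset V} {a b : V} (h : RT H W a b) {X : Finset V} (ha : a ∈ X)
    (hb : b ∉ X) : ∃ x ∈ X, ∃ w ∈ W, w ∉ X ∧ H.Adj x w := by
  induction h with
  | refl => exact absurd ha hb
  | @tail b c hab hbc ih =>
    by_cases hbX : b ∈ X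
    · exact ⟨b, hbX, c, hbc.2.2, hb, hbc.1⟩
    · exact ih hbX

open Classical in
theorem head_split {X : Finset V} {x z : V} (h : RT H X x z) :
    z = x ∨ ∃ y ∈ X.erase x, H.Adj x y ∧ RT H (X.erase x) y z := by
  induction h with
  | refl => exact Or.inl rfl
  | @tail b c hab hbc ih =>
    by_cases hc : c = x
    · exact Or.inl hc
    · right
      by_cases hb : b = x
      · subst hb
        exact ⟨c, Finset.mem_erase.2 ⟨hc, hbc.2.2⟩, hbc.1, Relation.ReflTransGen.refl⟩
      · rcases ih with h | ⟨y, hy, hxy, hyb⟩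
        · exact absurd h hb
        · exact ⟨y, hy, hxy, hyb.tail ⟨hbc.1, Finset.mem_erase.2 ⟨hb, hbc.2.1⟩,
            Finset.mem_erase.2 ⟨hc, hbc.2.2⟩⟩⟩

open Classical in
/-- The component of `y` in `Y`. -/
noncomputable def comp (H : SimpleGraph V) (Y : Finset V) (y : V) : Finset V :=
  Y.filter fun z => RT H Y y z

open Classical in
theorem RT_comp {Y : Finset V} {y : V} (hy : y ∈ Y) {z : V} (h : RT H Y y z) :
    z ∈ comp H Y y ∧ RT H (comp H Y y) y z := by
  induction h with
  | refl =>
    exact ⟨Finset.mem_filter.2 ⟨hy, Relation.ReflTransGen.refl⟩, Relation.ReflTransGen.refl⟩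
  | @tail b c hab hbc ih =>
    obtain ⟨h1, h2⟩ := ih
    have hc : c ∈ comp H Y y := Finset.mem_filter.2 ⟨hbc.2.2, Relation.ReflTransGen.tail hab hbc⟩
    exact ⟨hc, h2.tail ⟨hbc.1, h1, hc⟩⟩

open Classical in
theorem comp_conn {Y : Finset V} {y : V} (hy : y ∈ Y) :
    (H.induce (comp H Y y : Set V)).Connected := by
  refine conn_of_root (RT_comp hy Relation.ReflTransGen.refl).1 ?_
  intro v hv
  exact (RT_comp hy (Finset.mem_filter.1 hv).2).2

open Classical in
theorem comp_sub {Y : Finset V} {y : V} : comp H Y y ⊆ Y := Finset.filter_subset _ _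

open Classical in
/-- The key step: a minimal `X` is small. -/
theorem key [Fintype V] (D m : ℕ) (hm : 1 ≤ m) (hD : ∀ v, (H.neighborSet v).ncard ≤ D)
    (W : Finset V) (hW : (H.induce (W : Set V)).Connected) (hmW : m ≤ W.card) :
    ∃ X ⊆ W, (H.induce (X : Set V)).Connected ∧ m ≤ X.card ∧
      (W \ X = ∅ ∨ (H.induce ((W \ X : Finset V) : Set V)).Connected) ∧
      X.card ≤ 1 + D * (m - 1) := by
  set S : Finset (Finset V) := W.powerset.filter fun X =>
    (H.induce (X : Set V)).Connected ∧ m ≤ X.card ∧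
      (W \ X = ∅ ∨ (H.induce ((W \ X : Finset V) : Set V)).Connected) with hS
  have hWS : W ∈ S := by
    rw [hS, Finset.mem_filter]
    exact ⟨Finset.mem_powerset.2 (Finset.Subset.refl _), hW, hmW, Or.inl (by simp)⟩
  obtain ⟨X, hXS, hmin⟩ := Finset.exists_min_image S Finset.card ⟨W, hWS⟩
  have hXS' := hXS
  rw [hS, Finset.mem_filter] at hXS'
  obtain ⟨hXW, hXc, hXm, hWX⟩ := hXS'
  have hXW : X ⊆ W := Finset.mem_powerset.1 hXW
  refine ⟨X, hXW, hXc, hXm, hWX, ?_⟩
  -- the vertex x
  obtain ⟨x, hxX, hx⟩ : ∃ x ∈ X, W \ X = ∅ ∨ ∃ w ∈ W \ X, H.Adj x w := by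
    obtain ⟨a, ha⟩ := (conn_iff.1 hXc).1
    by_cases he : W \ X = ∅
    · exact ⟨a, ha, Or.inl he⟩
    · obtain ⟨b, hb⟩ := Finset.nonempty_iff_ne_empty.2 he
      obtain ⟨hbW, hbX⟩ := Finset.mem_sdiff.1 hb
      obtain ⟨x, hx, w, hwW, hwX, hxw⟩ :=
        exists_cross ((conn_iff.1 hW).2 a (hXW ha) b hbW) ha hbX
      exact ⟨x, hx, Or.inr ⟨w, Finset.mem_sdiff.2 ⟨hwW, hwX⟩, hxw⟩⟩
  set Y : Finset V := X.erase x with hY
  set N : Finset V := Y.filter fun y => H.Adj x y with hN
  have hcover : X ⊆ insert x (N.biUnion fun y => comp H Y y) := by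
    intro z hz
    rcases head_split ((conn_iff.1 hXc).2 x hxX z hz) with h | ⟨y, hy, hxy, hyz⟩
    · rw [h]
      exact Finset.mem_insert_self _ _
    · refine Finset.mem_insert_of_mem (Finset.mem_biUnion.2 ⟨y, ?_, ?_⟩)
      · exact Finset.mem_filter.2 ⟨hy, hxy⟩
      · exact (RT_comp hy hyz).1
  have hNcard : N.card ≤ D := by
    have h1 : ((N : Set V)).ncard ≤ (H.neighborSet x).ncard := by
      refine Set.ncard_le_ncard ?_ (Set.toFinite _)
      intro y hy
      exact (Finset.mem_filter.1 (Finset.mem_coe.1 hy)).2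
    rw [Set.ncard_coe_finset] at h1
    exact h1.trans (hD x)
  have hsmall : ∀ y ∈ N, (comp H Y y).card ≤ m - 1 := by
    intro y hy
    by_contra hcon
    push Not at hcon
    have hyY : y ∈ Y := (Finset.mem_filter.1 hy).1
    set C := comp H Y y with hC
    have hCY : C ⊆ Y := comp_sub
    have hCX : C ⊆ X := hCY.trans (Finset.erase_subset _ _)
    have hxC : x ∉ C := fun h => Finset.notMem_erase x X (hCY h)
    have hxWC : x ∈ W \ C := Finset.mem_sdiff.2 ⟨hXW hxX, hxC⟩
    have hCS : C ∈ S := by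
      rw [hS, Finset.mem_filter]
      refine ⟨Finset.mem_powerset.2 (hCX.trans hXW), comp_conn hyY, by omega, Or.inr ?_⟩
      refine conn_of_root hxWC ?_
      intro v hv
      obtain ⟨hvW, hvC⟩ := Finset.mem_sdiff.1 hv
      by_cases hvX : v ∈ X
      · rcases head_split ((conn_iff.1 hXc).2 x hxX v hvX) with h | ⟨y', hy', hxy', hyv'⟩
        · rw [h]
          exact Relation.ReflTransGen.refl
        · have hsub : comp H Y y' ⊆ W \ C := by
            intro z hz
            have hz' := Finset.mem_filter.1 hz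
            refine Finset.mem_sdiff.2 ⟨hXW (Finset.mem_of_mem_erase hz'.1), ?_⟩
            intro hzC
            have hzC' := Finset.mem_filter.1 hzC
            apply hvC
            have : RT H Y y v :=
              (hzC'.2.trans hz'.2.symm).trans hyv'
            exact (RT_comp hyY this).1
          have h1 : RT H (W \ C) y' v := (RT_comp hy' hyv').2.mono hsub
          have hy'WC : y' ∈ W \ C := hsub (RT_comp hy' Relation.ReflTransGen.refl).1
          exact Relation.ReflTransGen.head ⟨hxy', hxWC, hy'WC⟩ h1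
      · have hvWX : v ∈ W \ X := Finset.mem_sdiff.2 ⟨hvW, hvX⟩
        rcases hx with he | ⟨w, hw, hxw⟩
        · rw [he] at hvWX
          exact absurd hvWX (Finset.notMem_empty _)
        · have hc : (H.induce ((W \ X : Finset V) : Set V)).Connected := by
            rcases hWX with he | hc
            · rw [he] at hvWX
              exact absurd hvWX (Finset.notMem_empty _)
            · exact hc
          have hsub : W \ X ⊆ W \ C := Finset.sdiff_subset_sdiff (Finset.Subset.refl _) hCX
          have h1 : RT H (W \ C) w v := ((conn_iff.1 hc).2 w hw v hvWX).mono hsub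
          exact Relation.ReflTransGen.head ⟨hxw, hxWC, hsub hw⟩ h1
    have h1 := hmin C hCS
    have h2 : C.card < X.card := by
      refine Finset.card_lt_card ⟨hCX, fun h => hxC (h hxX)⟩
    omega
  calc X.card ≤ (insert x (N.biUnion fun y => comp H Y y)).card := Finset.card_le_card hcover
    _ ≤ (N.biUnion fun y => comp H Y y).card + 1 := Finset.card_insert_le _ _
    _ ≤ N.card * (m - 1) + 1 := by
        gcongr
        exact Finset.card_biUnion_le_card_mul _ _ _ hsmall
    _ ≤ D * (m - 1) + 1 := by gcongr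
    _ = 1 + D * (m - 1) := by ring

open Classical in
theorem packetB : GoalB := by
  intro V _ H D m hm hD W
  induction' hn : W.card using Nat.strong_induction_on with n ih generalizing W
  intro hW hmW
  obtain ⟨X, hXW, hXc, hXm, hWX, hXcard⟩ := key D m hm hD W hW (hn ▸ hmW)
  have hcard : (W \ X).card + X.card = W.card := Finset.card_sdiff_add_card_eq_card hXW
  by_cases hbig : m ≤ (W \ X).card
  · have hc : (H.induce ((W \ X : Finset V) : Set V)).Connected := by
      rcases hWX with he | hc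
      · rw [he, Finset.card_empty] at hbig
        omega
      · exact hc
    obtain ⟨F, hF, hcov, hsz⟩ := ih (W \ X).card (by omega) (W \ X) rfl hc hbig
    have hXd : ∀ P ∈ F, Disjoint X P := by
      intro P hP
      rw [Finset.disjoint_left]
      intro z hzX hzP
      exact (Finset.mem_sdiff.1 ((hcov z).2 ⟨P, hP, hzP⟩)).2 hzX
    refine ⟨insert X F, ⟨?_, ?_⟩, ?_, ?_⟩
    · intro P hP
      rcases Finset.mem_insert.1 hP with h | h
      · rw [h]
        exact hXc
      · exact hF.conn P h
    · intro P hP Q hQ hPQ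
      rcases Finset.mem_insert.1 hP with h | h <;> rcases Finset.mem_insert.1 hQ with h' | h'
      · exact absurd (h.trans h'.symm) hPQ
      · rw [h]
        exact hXd Q h'
      · rw [h']
        exact (hXd P h).symm
      · exact hF.disj P h Q h' hPQ
    · intro z
      constructor
      · intro hz
        by_cases hzX : z ∈ X
        · exact ⟨X, Finset.mem_insert_self _ _, hzX⟩
        · obtain ⟨P, hP, hzP⟩ := (hcov z).1 (Finset.mem_sdiff.2 ⟨hz, hzX⟩)
          exact ⟨P, Finset.mem_insert_of_mem hP, hzP⟩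
      · rintro ⟨P, hP, hzP⟩
        rcases Finset.mem_insert.1 hP with h | h
        · rw [h] at hzP
          exact hXW hzP
        · exact (Finset.mem_sdiff.1 ((hcov z).2 ⟨P, h, hzP⟩)).1
    · intro P hP
      rcases Finset.mem_insert.1 hP with h | h
      · rw [h]
        refine ⟨hXm, hXcard.trans ?_⟩
        obtain ⟨k, rfl⟩ : ∃ k, m = k + 1 := ⟨m - 1, by omega⟩
        simp only [Nat.add_sub_cancel]
        nlinarith
      · exact hsz P h
  · refine ⟨{W}, ⟨?_, ?_⟩, ?_, ?_⟩
    · intro P hP
      rw [Finset.mem_singleton.1 hP]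
      exact hW
    · intro P hP Q hQ hPQ
      exact absurd ((Finset.mem_singleton.1 hP).trans (Finset.mem_singleton.1 hQ).symm) hPQ
    · intro z
      simp
    · intro P hP
      rw [Finset.mem_singleton.1 hP]
      refine ⟨hn ▸ hmW, ?_⟩
      obtain ⟨k, rfl⟩ : ∃ k, m = k + 1 := ⟨m - 1, by omega⟩
      simp only [Nat.add_sub_cancel] at hXcard
      nlinarith

end Pool.Agent.Helper10.Plz
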