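import Pool.Agent.Helper60.Plz.Defs

/-!
# Packet I of MP_8e7d5e_co: counting ends in a union of components
-/

set_option autoImplicit false

namespace Pool.Agent.Helper10.Plz

open Pool.Agent.Helper60.Plz

/-- A non-backtracking walk in a set of minimum degree two without short closed non-backtracking
walks has many vertices. -/
theorem walk_big {U : Type} (H : SimpleGraph U) (E : Finset U) (hne : E.Nonempty)
    (h2 : ∀ u ∈ E, ∀ w, ∃ u' ∈ E, H.Adj u u' ∧ u' ≠ w) (g : ℕ)
    (hyp : ∀ (n : ℕ) (v : ℕ → U), 1 ≤ n → n ≤ g →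
      (∀ i < n, H.Adj (v i) (v (i + 1))) →
      (∀ i, i + 1 < n → v i ≠ v (i + 2)) → v n ≠ v 0) : g + 1 ≤ E.card := by
  classical
  have hex : ∀ p c : U, ∃ n : U, c ∈ E → (n ∈ E ∧ H.Adj c n ∧ n ≠ p) := by
    intro p c
    by_cases hc : c ∈ E
    · obtain ⟨n, h1, h3, h4⟩ := h2 c hc p
      exact ⟨n, fun _ => ⟨h1, h3, h4⟩⟩
    · exact ⟨p, fun h => absurd h hc⟩
  choose nxt hnxt using hex
  obtain ⟨u0, hu0⟩ := hne
  let st : ℕ → U × U := fun n => Nat.rec (u0, nxt u0 u0) (fun _ q => (q.2, nxt q.1 q.2)) n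
  have hst : ∀ n, st (n + 1) = ((st n).2, nxt (st n).1 (st n).2) := fun n => rfl
  have hinv : ∀ n, (st n).1 ∈ E ∧ (st n).2 ∈ E ∧ H.Adj (st n).1 (st n).2 := by
    intro n
    induction n with
    | zero =>
      obtain ⟨h1, h3, _⟩ := hnxt u0 u0 hu0
      exact ⟨hu0, h1, h3⟩
    | succ n ih =>
      obtain ⟨h1, h3, h4⟩ := ih
      obtain ⟨h5, h6, _⟩ := hnxt (st n).1 (st n).2 h3
      rw [hst]
      exact ⟨h3, h5, h6⟩
  set v : ℕ → U := fun n => (st n).1 with hv
  have hv1 : ∀ n, v (n + 1) = (st n).2 := fun n => rfl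
  have hadj : ∀ n, H.Adj (v n) (v (n + 1)) := fun n => (hinv n).2.2
  have hnb : ∀ n, v n ≠ v (n + 2) := fun n => (hnxt (st n).1 (st n).2 (hinv n).2.1).2.2.symm
  have hinj : ∀ i j, i < j → j ≤ g → v i ≠ v j := by
    intro i j hij hj
    have h := hyp (j - i) (fun k => v (i + k)) (by omega) (by omega)
      (fun k _ => hadj (i + k)) (fun k _ => hnb (i + k))
    have h1 : i + (j - i) = j := by omega
    simp only [h1, Nat.add_zero] at h
    exact h.symm
  have hcard : ((Finset.range (g + 1)).image v).card = g + 1 := by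
    rw [Finset.card_image_of_injOn, Finset.card_range]
    intro i hi j hj hvij
    have hi' : i < g + 1 := by simpa using hi
    have hj' : j < g + 1 := by simpa using hj
    rcases lt_trichotomy i j with h | h | h
    · exact absurd hvij (hinj i j h (by omega))
    · exact h
    · exact absurd hvij.symm (hinj j i h (by omega))
  rw [← hcard]
  refine Finset.card_le_card ?_
  intro x hx
  obtain ⟨n, _, rfl⟩ := Finset.mem_image.1 hx
  exact (hinv n).1

section

variable {a b : ℕ} {Γ : Type} [Group Γ] {π : Fin b × Fin a → Γ}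

theorem mem_left {C : Finset (Fin b × Fin a × Γ)} (hC : ∀ x ∈ C, ∀ y, (lg π).Adj x y → y ∈ C)
    {x : Fin b × Fin a × Γ} (hx : x ∈ C) (j : Fin a) : (x.1, j, x.2.2) ∈ C := by
  by_cases h : x = (x.1, j, x.2.2)
  · rw [← h]
    exact hx
  · exact hC x hx _ ⟨h, Or.inl rfl⟩

theorem mem_right {C : Finset (Fin b × Fin a × Γ)} (hC : ∀ x ∈ C, ∀ y, (lg π).Adj x y → y ∈ C)
    (hπ : ∀ e, π e * π e = 1)
    {x : Fin b × Fin a × Γ} (hx : x ∈ C) (i : Fin b) :
    (i, x.2.1, (x.2.2 * π (x.1, x.2.1)) * π (i, x.2.1)) ∈ C := by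
  by_cases h : x = (i, x.2.1, (x.2.2 * π (x.1, x.2.1)) * π (i, x.2.1))
  · rw [← h]
    exact hx
  · refine hC x hx _ ⟨h, Or.inr ?_⟩
    simp only [rend, mul_assoc, hπ, mul_one]

open Classical in
theorem card_left (C : Finset (Fin b × Fin a × Γ))
    (hC : ∀ x ∈ C, ∀ y, (lg π).Adj x y → y ∈ C) :
    a * (C.image lend).card = C.card := by
  rw [Finset.card_eq_sum_card_image lend C]
  rw [Finset.sum_const_nat (m := a), mul_comm]
  intro u hu
  obtain ⟨x, hx, rfl⟩ := Finset.mem_image.1 hu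
  have h1 : (C.filter fun y => lend y = lend x) =
      (Finset.univ : Finset (Fin a)).image fun j => (x.1, j, x.2.2) := by
    ext y
    simp only [Finset.mem_filter, Finset.mem_image, Finset.mem_univ, true_and]
    constructor
    · rintro ⟨_, hy⟩
      simp only [lend, Sum.inl.injEq, Prod.mk.injEq] at hy
      refine ⟨y.2.1, ?_⟩
      rw [← hy.1, ← hy.2]
    · rintro ⟨j, rfl⟩
      exact ⟨mem_left hC hx j, rfl⟩
  rw [h1, Finset.card_image_of_injective, Finset.card_univ, Fintype.card_fin]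
  intro j j' hjj
  simp only [Prod.mk.injEq, true_and, and_true] at hjj
  exact hjj

open Classical in
theorem card_right (C : Finset (Fin b × Fin a × Γ)) (hπ : ∀ e, π e * π e = 1)
    (hC : ∀ x ∈ C, ∀ y, (lg π).Adj x y → y ∈ C) :
    b * (C.image (rend π)).card = C.card := by
  rw [Finset.card_eq_sum_card_image (rend π) C]
  rw [Finset.sum_const_nat (m := b), mul_comm]
  intro u hu
  obtain ⟨x, hx, rfl⟩ := Finset.mem_image.1 hu
  have h1 : (C.filter fun y => rend π y = rend π x) =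
      (Finset.univ : Finset (Fin b)).image fun i =>
        (i, x.2.1, (x.2.2 * π (x.1, x.2.1)) * π (i, x.2.1)) := by
    ext y
    simp only [Finset.mem_filter, Finset.mem_image, Finset.mem_univ, true_and]
    constructor
    · rintro ⟨_, hy⟩
      simp only [rend, Sum.inr.injEq, Prod.mk.injEq] at hy
      refine ⟨y.1, ?_⟩
      rw [← hy.2, ← hy.1, mul_assoc, hπ, mul_one]
    · rintro ⟨i, rfl⟩
      refine ⟨mem_right hC hπ hx i, ?_⟩
      simp only [rend, mul_assoc, hπ, mul_one]
  rw [h1, Finset.card_image_of_injective, Finset.card_univ, Fintype.card_fin]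
  intro i i' hii
  exact (Prod.mk.inj hii).1

end

open Classical in
theorem packetI : GoalI := by
  intro a b g Γ _ _ π ha hb hπ hyp C hne hC
  refine ⟨card_left C hC, card_right C hπ hC, ?_⟩
  refine walk_big (endGraph lend (rend π) Set.univ) _ ?_ ?_ g hyp
  · obtain ⟨x, hx⟩ := hne
    exact ⟨lend x, Finset.mem_union_left _ (Finset.mem_image_of_mem _ hx)⟩
  · intro u hu w
    rcases Finset.mem_union.1 hu with h | h
    · obtain ⟨x, hx, rfl⟩ := Finset.mem_image.1 h
      have hj : ∀ j : Fin a, ∃ u' ∈ C.image lend ∪ C.image (rend π),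
          (endGraph lend (rend π) Set.univ).Adj (lend x) u' ∧
          u' = Sum.inr (j, x.2.2 * π (x.1, j)) := by
        intro j
        refine ⟨rend π (x.1, j, x.2.2), Finset.mem_union_right _
          (Finset.mem_image_of_mem _ (mem_left hC hx j)), ⟨?_, ?_⟩, rfl⟩
        · simp [lend, rend]
        · exact ⟨(x.1, j, x.2.2), Set.mem_univ _, Or.inl ⟨rfl, rfl⟩⟩
      obtain ⟨u1, hu1, hadj1, he1⟩ := hj ⟨0, by omega⟩
      obtain ⟨u2, hu2, hadj2, he2⟩ := hj ⟨1, by omega⟩
      by_cases hw : u1 = w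
      · refine ⟨u2, hu2, hadj2, ?_⟩
        rw [← hw, he1, he2]
        intro h3
        simp only [Sum.inr.injEq, Prod.mk.injEq, Fin.mk.injEq] at h3
        omega
      · exact ⟨u1, hu1, hadj1, hw⟩
    · obtain ⟨x, hx, rfl⟩ := Finset.mem_image.1 h
      have hj : ∀ i : Fin b, ∃ u' ∈ C.image lend ∪ C.image (rend π),
          (endGraph lend (rend π) Set.univ).Adj (rend π x) u' ∧
          u' = Sum.inl (i, (x.2.2 * π (x.1, x.2.1)) * π (i, x.2.1)) := by
        intro i
        refine ⟨lend (i, x.2.1, (x.2.2 * π (x.1, x.2.1)) * π (i, x.2.1)),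
          Finset.mem_union_left _
          (Finset.mem_image_of_mem _ (mem_right hC hπ hx i)), ⟨?_, ?_⟩, rfl⟩
        · simp [lend, rend]
        · refine ⟨(i, x.2.1, (x.2.2 * π (x.1, x.2.1)) * π (i, x.2.1)), Set.mem_univ _,
            Or.inr ⟨rfl, ?_⟩⟩
          simp only [rend, mul_assoc, hπ, mul_one]
      obtain ⟨u1, hu1, hadj1, he1⟩ := hj ⟨0, by omega⟩
      obtain ⟨u2, hu2, hadj2, he2⟩ := hj ⟨1, by omega⟩
      by_cases hw : u1 = w
      · refine ⟨u2, hu2, hadj2, ?_⟩
        rw [← hw, he1, he2]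
        intro h3
        simp only [Sum.inl.injEq, Prod.mk.injEq, Fin.mk.injEq] at h3
        omega
      · exact ⟨u1, hu1, hadj1, hw⟩

end Pool.Agent.Helper10.Plz
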